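import Mathlib

/-!
# Bisection and (min,+) programs

Exhaustive search is an exactly optimal pure dynamic program for BISECTION: a straight-line
program with the operations min and + that outputs the width of a minimum bisection of every
simple graph on 2m vertices needs exactly C(2m,m)/2 - 1 min operations.
-/

namespace Pool.Agent.Results.MP_a9445a_lc.TropicalExact

open Finset
open scoped Pointwise

/-- straight-line programs over (min,+); `Program E n` is a program that continues after `n`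
numbers have been computed -/
inductive Program (E : Type) : ℕ → Type
  | out {n : ℕ} (i : Fin n) : Program E n
  | var {n : ℕ} (e : E) (C : Program E (n + 1)) : Program E n
  | const {n : ℕ} (r : ℝ) (C : Program E (n + 1)) : Program E n
  | min {n : ℕ} (i j : Fin n) (C : Program E (n + 1)) : Program E n
  | add {n : ℕ} (i j : Fin n) (C : Program E (n + 1)) : Program E n

variable {E : Type}

/-- the output of the program on the inputs `w`, when the numbers `v` have been computed -/
noncomputable def Program.value (w : E → ℝ) : {n : ℕ} → Program E n → (Fin n → ℝ) → ℝ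
  | _, .out i, v => v i
  | _, .var e C, v => C.value w (Fin.snoc (α := fun _ => ℝ) v (w e))
  | _, .const r C, v => C.value w (Fin.snoc (α := fun _ => ℝ) v r)
  | _, .min i j C, v => C.value w (Fin.snoc (α := fun _ => ℝ) v (v i ⊓ v j))
  | _, .add i j C, v => C.value w (Fin.snoc (α := fun _ => ℝ) v (v i + v j))

/-- the number of min gates -/
def Program.minGates : {n : ℕ} → Program E n → ℕ
  | _, .out _ => 0
  | _, .var _ C => C.minGates
  | _, .const _ C => C.minGates
  | _, .min _ _ C => C.minGates + 1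
  | _, .add _ _ C => C.minGates

/-- no constant except 0 is used -/
def Program.ZeroConst : {n : ℕ} → Program E n → Prop
  | _, .out _ => True
  | _, .var _ C => C.ZeroConst
  | _, .const r C => r = 0 ∧ C.ZeroConst
  | _, .min _ _ C => C.ZeroConst
  | _, .add _ _ C => C.ZeroConst

/-- the sets of monomials computed by the program in a commutative monoid -/
def Program.run {N : Type} [AddCommMonoid N] (ι : E → N) :
    {n : ℕ} → Program E n → (Fin n → Set N) → Set N
  | _, .out i, σ => σ i
  | _, .var e C, σ => C.run ι (Fin.snoc (α := fun _ => Set N) σ {ι e})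
  | _, .const _ C, σ => C.run ι (Fin.snoc (α := fun _ => Set N) σ {0})
  | _, .min i j C, σ => C.run ι (Fin.snoc (α := fun _ => Set N) σ (σ i ∪ σ j))
  | _, .add i j C, σ => C.run ι (Fin.snoc (α := fun _ => Set N) σ (σ i + σ j))

lemma run_hom {N M : Type} [AddCommMonoid N] [AddCommMonoid M] (ι : E → N) (κ : E → M)
    (φ : Set N → Set M) (hu : ∀ A B, φ (A ∪ B) = φ A ∪ φ B) (ha : ∀ A B, φ (A + B) = φ A + φ B)
    (h0 : φ {0} = {0}) (hι : ∀ e, φ {ι e} = {κ e}) {n : ℕ} (C : Program E n)
    (σ : Fin n → Set N) : C.run κ (fun i => φ (σ i)) = φ (C.run ι σ) := by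
  have key : ∀ {n : ℕ} (σ : Fin n → Set N) (A : Set N),
      Fin.snoc (α := fun _ => Set M) (fun i => φ (σ i)) (φ A)
        = fun i => φ (Fin.snoc (α := fun _ => Set N) σ A i) := by
    intro n σ A
    exact (Fin.comp_snoc φ σ A).symm
  induction C with
  | out i => rfl
  | var e C ih => simp only [Program.run]; rw [← hι, key, ih]
  | const r C ih => simp only [Program.run]; rw [← h0, key, ih]
  | min i j C ih => simp only [Program.run]; rw [← hu, key, ih]
  | add i j C ih => simp only [Program.run]; rw [← ha, key, ih]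

/-- no rectangle -/
def RF {N : Type} [AddCommMonoid N] (L : Set N) : Prop :=
  ∀ p q s t : N, p + s ∈ L → p + t ∈ L → q + s ∈ L → q + t ∈ L → p = q ∨ s = t

/-- substitute p or q for the marked variable -/
def subst {N : Type} [AddCommMonoid N] (p q : N) (H : Set (N × ℕ)) : Set N :=
  {x | ∃ t a b, (t, a + b) ∈ H ∧ x = t + a • p + b • q}

lemma subst_union {N : Type} [AddCommMonoid N] (p q : N) (A B : Set (N × ℕ)) :
    subst p q (A ∪ B) = subst p q A ∪ subst p q B := by
  ext x
  constructor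
  · rintro ⟨t, a, b, h | h, rfl⟩
    · exact Or.inl ⟨t, a, b, h, rfl⟩
    · exact Or.inr ⟨t, a, b, h, rfl⟩
  · rintro (⟨t, a, b, h, rfl⟩ | ⟨t, a, b, h, rfl⟩)
    · exact ⟨t, a, b, Or.inl h, rfl⟩
    · exact ⟨t, a, b, Or.inr h, rfl⟩

lemma subst_add {N : Type} [AddCommMonoid N] (p q : N) (A B : Set (N × ℕ)) :
    subst p q (A + B) = subst p q A + subst p q B := by
  ext x
  constructor
  · rintro ⟨t, a, b, ⟨⟨t1, k1⟩, h1, ⟨t2, k2⟩, h2, he⟩, rfl⟩
    simp only [Prod.mk_add_mk, Prod.mk.injEq] at he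
    obtain ⟨rfl, hk⟩ := he
    refine ⟨t1 + (Min.min a k1) • p + (k1 - Min.min a k1) • q, ⟨t1, _, _, ?_, rfl⟩,
      t2 + (a - Min.min a k1) • p + (b - (k1 - Min.min a k1)) • q, ⟨t2, _, _, ?_, rfl⟩, ?_⟩
    · rwa [show Min.min a k1 + (k1 - Min.min a k1) = k1 by omega]
    · rwa [show (a - Min.min a k1) + (b - (k1 - Min.min a k1)) = k2 by omega]
    · have h3 : a = Min.min a k1 + (a - Min.min a k1) := by omega
      have h4 : b = (k1 - Min.min a k1) + (b - (k1 - Min.min a k1)) := by omega
      conv_rhs => rw [h3, h4]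
      simp only [add_smul]
      abel
  · rintro ⟨_, ⟨t1, a1, b1, h1, rfl⟩, _, ⟨t2, a2, b2, h2, rfl⟩, rfl⟩
    refine ⟨t1 + t2, a1 + a2, b1 + b2, ⟨_, h1, _, h2, ?_⟩, ?_⟩
    · simp only [Prod.mk_add_mk, Prod.mk.injEq, true_and]; omega
    · simp only [add_smul]; abel

lemma subst_zero {N : Type} [AddCommMonoid N] (p q t : N) : subst p q {(t, 0)} = {t} := by
  ext x
  constructor
  · rintro ⟨t', a, b, h, rfl⟩
    simp only [Set.mem_singleton_iff, Prod.mk.injEq] at h
    obtain ⟨rfl, hab⟩ := h
    have ha : a = 0 := by omega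
    have hb : b = 0 := by omega
    subst ha hb
    simp
  · rintro rfl
    exact ⟨x, 0, 0, rfl, by simp⟩

lemma subst_one {N : Type} [AddCommMonoid N] (p q : N) :
    subst p q {((0 : N), 1)} = {p} ∪ {q} := by
  ext x
  constructor
  · rintro ⟨t', a, b, h, rfl⟩
    simp only [Set.mem_singleton_iff, Prod.mk.injEq] at h
    obtain ⟨rfl, hab⟩ := h
    rcases Nat.eq_zero_or_pos a with ha | ha
    · have hb : b = 1 := by omega
      subst ha hb
      right; simp
    · have ha : a = 1 := by omega
      have hb : b = 0 := by omega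
      subst ha hb
      left; simp
  · rintro (rfl | rfl)
    · exact ⟨0, 1, 0, rfl, by simp⟩
    · exact ⟨0, 0, 1, rfl, by simp⟩

lemma run_subst {N : Type} [AddCommMonoid N] (ι : E → N) {n : ℕ} (C : Program E (n + 1))
    (σ : Fin n → N) (p q : N) :
    C.run ι (Fin.snoc (α := fun _ => Set N) (fun i => {σ i}) ({p} ∪ {q}))
      = subst p q (C.run (N := N × ℕ) (fun e => (ι e, 0))
        (Fin.snoc (α := fun _ => Set (N × ℕ)) (fun i => {(σ i, 0)}) {((0 : N), 1)})) := by
  rw [← run_hom (fun e => (ι e, 0)) ι (subst p q) (subst_union p q) (subst_add p q)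
    (subst_zero p q 0) (fun e => subst_zero p q _)]
  congr 1
  rw [← subst_one p q]
  have := Fin.comp_snoc (subst p q) (fun i => ({(σ i, 0)} : Set (N × ℕ))) {((0 : N), 1)}
  refine Eq.trans ?_ this.symm
  congr 1
  funext i
  exact (subst_zero p q _).symm

lemma subst_comm {N : Type} [AddCommMonoid N] (p q : N) (H : Set (N × ℕ)) :
    subst p q H = subst q p H := by
  ext x
  constructor
  · rintro ⟨t, a, b, h, rfl⟩
    exact ⟨t, b, a, by rwa [add_comm], by abel⟩
  · rintro ⟨t, a, b, h, rfl⟩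
    exact ⟨t, b, a, by rwa [add_comm], by abel⟩

lemma step {N : Type} [AddCancelCommMonoid N] (deg : N →+ ℕ) (d : ℕ) (p q : N)
    (H : Set (N × ℕ)) (hpq : deg p ≤ deg q) (hd : ∀ x ∈ subst p q H, d ≤ deg x)
    (hR : RF {x ∈ subst p q H | deg x = d}) :
    {x ∈ subst p q H | deg x = d}.encard ≤ {x ∈ subst p p H | deg x = d}.encard + 1 := by
  have h1 : {x ∈ subst p q H | deg x = d} ⊆ {x ∈ subst p p H | deg x = d}
      ∪ {x ∈ subst p q H | deg x = d ∧ x ∉ subst p p H} := by
    rintro x ⟨hx, hx2⟩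
    by_cases h : x ∈ subst p p H
    · exact Or.inl ⟨h, hx2⟩
    · exact Or.inr ⟨hx, hx2, h⟩
  refine (Set.encard_le_encard h1).trans ((Set.encard_union_le _ _).trans ?_)
  refine add_le_add le_rfl ?_
  -- the form of the exceptional elements
  have h2 : ∀ x ∈ {x ∈ subst p q H | deg x = d ∧ x ∉ subst p p H},
      p ≠ q ∧ ∃ t, x = t + q ∧ t + p ∈ {x ∈ subst p q H | deg x = d}
        ∧ t + q ∈ {x ∈ subst p q H | deg x = d} := by
    rintro x ⟨⟨t, a, b, hH, rfl⟩, hx2, hx3⟩
    have hb : 1 ≤ b := by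
      by_contra hb
      have hb : b = 0 := by omega
      subst hb
      exact hx3 ⟨t, a, 0, hH, by simp⟩
    have hne : p ≠ q := by
      rintro rfl
      exact hx3 ⟨t, a, b, hH, rfl⟩
    have hdeg : ∀ a' b', a' + b' = a + b → deg (t + a' • p + b' • q) = d := by
      have h3 := hd (t + (a + b) • p + 0 • q) ⟨t, a + b, 0, hH, rfl⟩
      simp only [map_add, map_nsmul, smul_eq_mul, zero_mul, add_zero] at h3 hx2
      have h4 : deg q = deg p := by
        have h5 : (a + b) * deg p = a * deg p + b * deg p := add_mul _ _ _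
        have h6 : b * deg q ≤ b * deg p := by omega
        have h7 := Nat.le_of_mul_le_mul_left h6 hb
        omega
      intro a' b' hab
      simp only [map_add, map_nsmul, smul_eq_mul]
      rw [h4] at hx2 ⊢
      rw [add_assoc, ← add_mul] at hx2 ⊢
      rw [hab]; exact hx2
    have hmem : ∀ a' b', a' + b' = a + b → t + a' • p + b' • q ∈ {x ∈ subst p q H | deg x = d} :=
      fun a' b' hab => ⟨⟨t, a', b', by rwa [hab], rfl⟩, hdeg a' b' hab⟩
    rcases Nat.lt_or_ge (a + b) 2 with hk | hk
    · have ha : a = 0 := by omega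
      have hb : b = 1 := by omega
      subst ha hb
      refine ⟨hne, t, by simp, ?_, ?_⟩
      · have := hmem 1 0 (by norm_num)
        simpa using this
      · have := hmem 0 1 (by norm_num)
        simpa using this
    · exfalso
      obtain ⟨c, hc⟩ := Nat.exists_eq_add_of_le hk
      have h3 := hR p q (t + c • p + p) (t + c • p + q) ?_ ?_ ?_ ?_
      · rcases h3 with h3 | h3
        · exact hne h3
        · exact hne (add_left_cancel h3)
      · have := hmem (c + 2) 0 (by omega)
        convert this using 1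
        simp only [add_smul, zero_smul, two_smul]; abel
      · have := hmem (c + 1) 1 (by omega)
        convert this using 1
        simp only [add_smul, one_smul]; abel
      · have := hmem (c + 1) 1 (by omega)
        convert this using 1
        simp only [add_smul, one_smul]; abel
      · have := hmem c 2 (by omega)
        convert this using 1
        simp only [two_smul]; abel
  rw [Set.encard_le_one_iff]
  intro x y hx hy
  obtain ⟨hne, t, rfl, ht1, ht2⟩ := h2 x hx
  obtain ⟨-, s, rfl, hs1, hs2⟩ := h2 y hy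
  rw [add_comm t, add_comm s]
  rw [add_comm t] at ht1 ht2
  rw [add_comm s] at hs1 hs2
  rcases hR p q t s ht1 hs1 ht2 hs2 with h3 | h3
  · exact absurd h3 hne
  · rw [h3]

theorem schnorr {N : Type} [AddCancelCommMonoid N] (deg : N →+ ℕ) (ι : E → N) (d : ℕ) {n : ℕ}
    (C : Program E n) (σ : Fin n → N) (hd : ∀ x ∈ C.run ι (fun i => {σ i}), d ≤ deg x)
    (hR : RF {x ∈ C.run ι (fun i => {σ i}) | deg x = d}) :
    {x ∈ C.run ι (fun i => {σ i}) | deg x = d}.encard ≤ (C.minGates : ℕ∞) + 1 := by
  have key : ∀ {n : ℕ} (σ : Fin n → N) (a : N),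
      Fin.snoc (α := fun _ => Set N) (fun i => {σ i}) {a}
        = fun i => {Fin.snoc (α := fun _ => N) σ a i} := by
    intro n σ a
    exact (Fin.comp_snoc (fun a : N => ({a} : Set N)) σ a).symm
  induction C with
  | out i =>
    simp only [Program.minGates, Nat.cast_zero, zero_add]
    refine (Set.encard_le_encard (t := {σ i}) ?_).trans (by simp)
    intro x hx
    exact hx.1
  | var e C ih =>
    simp only [Program.run, Program.minGates] at hd hR ⊢
    rw [key] at hd hR ⊢
    exact ih _ hd hR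
  | const r C ih =>
    simp only [Program.run, Program.minGates] at hd hR ⊢
    rw [key] at hd hR ⊢
    exact ih _ hd hR
  | add i j C ih =>
    simp only [Program.run, Program.minGates, Set.singleton_add_singleton] at hd hR ⊢
    rw [key] at hd hR ⊢
    exact ih _ hd hR
  | min i j C ih =>
    simp only [Program.run, Program.minGates] at hd hR ⊢
    rw [run_subst] at hd hR ⊢
    have hsub1 : ∀ p q : N, subst p p (C.run (N := N × ℕ) (fun e => (ι e, 0))
        (Fin.snoc (α := fun _ => Set (N × ℕ)) (fun i => {(σ i, 0)}) {((0 : N), 1)}))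
        ⊆ subst p q (C.run (N := N × ℕ) (fun e => (ι e, 0))
        (Fin.snoc (α := fun _ => Set (N × ℕ)) (fun i => {(σ i, 0)}) {((0 : N), 1)})) := by
      rintro p q x ⟨t, a, b, h, rfl⟩
      exact ⟨t, a + b, 0, h, by simp only [add_smul, zero_smul]; abel⟩
    have hsingle : ∀ p : N, subst p p (C.run (N := N × ℕ) (fun e => (ι e, 0))
        (Fin.snoc (α := fun _ => Set (N × ℕ)) (fun i => {(σ i, 0)}) {((0 : N), 1)}))
        = C.run ι (fun i => {Fin.snoc (α := fun _ => N) σ p i}) := by
      intro p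
      rw [← run_subst, Set.union_self, key]
    have hmain : ∀ p q : N, deg p ≤ deg q →
        (∀ x ∈ subst p q (C.run (N := N × ℕ) (fun e => (ι e, 0))
          (Fin.snoc (α := fun _ => Set (N × ℕ)) (fun i => {(σ i, 0)}) {((0 : N), 1)})), d ≤ deg x) →
        (RF {x ∈ subst p q (C.run (N := N × ℕ) (fun e => (ι e, 0))
          (Fin.snoc (α := fun _ => Set (N × ℕ)) (fun i => {(σ i, 0)}) {((0 : N), 1)})) | deg x = d}) →
        {x ∈ subst p q (C.run (N := N × ℕ) (fun e => (ι e, 0))
          (Fin.snoc (α := fun _ => Set (N × ℕ)) (fun i => {(σ i, 0)}) {((0 : N), 1)})) |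
            deg x = d}.encard ≤ ((C.minGates + 1 : ℕ) : ℕ∞) + 1 := by
      intro p q hpq hd hR
      refine (step deg d p q _ hpq hd hR).trans ?_
      have h3 := ih (Fin.snoc (α := fun _ => N) σ p) ?_ ?_
      · rw [hsingle p]
        refine add_le_add (h3.trans ?_) le_rfl
        push_cast; exact le_rfl
      · intro x hx
        rw [← hsingle] at hx
        exact hd x (hsub1 p q hx)
      · intro a b c e h1 h2 h3 h4
        rw [← hsingle] at h1 h2 h3 h4
        exact hR a b c e ⟨hsub1 p q h1.1, h1.2⟩ ⟨hsub1 p q h2.1, h2.2⟩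
          ⟨hsub1 p q h3.1, h3.2⟩ ⟨hsub1 p q h4.1, h4.2⟩
    rcases le_total (deg (σ i)) (deg (σ j)) with h | h
    · exact hmain _ _ h hd hR
    · rw [subst_comm] at hd hR ⊢
      exact hmain _ _ h hd hR


/-- 1 if the two truth values differ -/
def dif (a b : Bool) : ℕ := if a = b then 0 else 1

/-- cuts form a Sidon set -/
lemma sidon {α : Type} (x w y z : α → Bool)
    (h : ∀ u v, dif (x u) (x v) + dif (w u) (w v) = dif (y u) (y v) + dif (z u) (z v)) :
    (∀ u v, dif (y u) (y v) = dif (x u) (x v)) ∨ (∀ u v, dif (z u) (z v) = dif (x u) (x v)) := by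
  have loc : ∀ a a' b b' c c' d d' : Bool, dif a a' + dif b b' = dif c c' + dif d d' →
      ((xor b a = xor b' a') → (xor c a = xor c' a') ∧ (xor d a = xor d' a')) ∧
      ((xor c a ≠ xor c' a') → (xor d a = xor d' a')) ∧
      ((xor c a = xor c' a') → dif c c' = dif a a') ∧
      ((xor d a = xor d' a') → dif d d' = dif a a') := by decide
  by_contra hc
  push Not at hc
  obtain ⟨⟨u1, v1, h1⟩, ⟨u2, v2, h2⟩⟩ := hc
  have L := fun u v => loc _ _ _ _ _ _ _ _ (h u v)
  set r : α → Bool := fun u => xor (w u) (x u) with hr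
  set s : α → Bool := fun u => xor (y u) (x u) with hs
  set t : α → Bool := fun u => xor (z u) (x u) with ht
  have A : ∀ u v, r u = r v → s u = s v ∧ t u = t v := fun u v => (L u v).1
  have B : ∀ u v, s u ≠ s v → t u = t v := fun u v => (L u v).2.1
  have C1 : s u1 ≠ s v1 := fun hh => h1 ((L u1 v1).2.2.1 hh)
  have C2 : t u2 ≠ t v2 := fun hh => h2 ((L u2 v2).2.2.2 hh)
  have D1 : t u1 = t v1 := B _ _ C1
  have D2 : s u2 = s v2 := by
    by_contra hh
    exact C2 (B _ _ hh)
  have E1 : r u1 ≠ r v1 := fun hh => C1 (A _ _ hh).1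
  have E2 : r u2 ≠ r v2 := fun hh => C2 (A _ _ hh).2
  have F : (r u1 = r u2 ∧ r v1 = r v2) ∨ (r u1 = r v2 ∧ r v1 = r u2) := by
    revert E1 E2
    generalize r u1 = a; generalize r v1 = b; generalize r u2 = c; generalize r v2 = d
    revert a b c d; decide
  rcases F with ⟨f1, f2⟩ | ⟨f1, f2⟩
  · exact C1 ((A _ _ f1).1.trans (D2.trans (A _ _ f2).1.symm))
  · exact C1 ((A _ _ f1).1.trans (D2.symm.trans (A _ _ f2).1.symm))


/-- the number v is, up to K, the least of the values of the monomials in S -/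
def Rel [Fintype E] (w : E → ℝ) (K v : ℝ) (S : Set (E → ℕ)) : Prop :=
  (∀ x ∈ S, v ≤ ∑ e, (x e : ℝ) * w e + K) ∧ ∃ x ∈ S, ∑ e, (x e : ℝ) * w e ≤ v + K

lemma Rel.mono [Fintype E] {w : E → ℝ} {K K' v : ℝ} {S : Set (E → ℕ)} (h : Rel w K v S)
    (hK : K ≤ K') : Rel w K' v S := by
  obtain ⟨h1, x, hx, h2⟩ := h
  exact ⟨fun x hx => (h1 x hx).trans (by linarith), x, hx, h2.trans (by linarith)⟩

lemma rel_snoc [Fintype E] {w : E → ℝ} {K : ℝ} {n : ℕ} {v : Fin n → ℝ}
    {σ : Fin n → Set (E → ℕ)} (h : ∀ i, Rel w K (v i) (σ i)) {a : ℝ} {A : Set (E → ℕ)}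
    (ha : Rel w K a A) (i : Fin (n + 1)) :
    Rel w K (Fin.snoc (α := fun _ => ℝ) v a i) (Fin.snoc (α := fun _ => Set (E → ℕ)) σ A i) := by
  refine Fin.lastCases ?_ (fun i => ?_) i
  · simpa using ha
  · simpa using h i

lemma value_run [Fintype E] [DecidableEq E] {n : ℕ} (C : Program E n) : ∀ K0 : ℝ, 0 ≤ K0 →
    ∃ K : ℝ, 0 ≤ K ∧ (C.ZeroConst → K0 = 0 → K = 0) ∧ ∀ (w : E → ℝ) (v : Fin n → ℝ)
      (σ : Fin n → Set (E → ℕ)), (∀ i, Rel w K0 (v i) (σ i)) →
        Rel w K (C.value w v) (C.run (fun e => Pi.single e 1) σ) := by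
  induction C with
  | out i => exact fun K0 h0 => ⟨K0, h0, fun _ h => h, fun w v σ h => h i⟩
  | var e C ih =>
    intro K0 h0
    obtain ⟨K, hK, hz, h⟩ := ih K0 h0
    refine ⟨K, hK, fun hC => hz hC, fun w v σ hv => h w _ _ (rel_snoc hv ?_)⟩
    have h1 : ∑ e', ((Pi.single e 1 : E → ℕ) e' : ℝ) * w e' = w e := by
      rw [Finset.sum_eq_single e]
      · simp
      · intro b _ hb; simp [Pi.single_eq_of_ne hb]
      · simp
    refine ⟨?_, _, rfl, ?_⟩
    · rintro x rfl
      rw [h1]; linarith
    · rw [h1]; linarith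
  | const r C ih =>
    intro K0 h0
    obtain ⟨K, hK, hz, h⟩ := ih (K0 + |r|) (by positivity)
    refine ⟨K, hK, fun hC h00 => hz hC.2 (by rw [h00, hC.1]; simp), fun w v σ hv => h w _ _
      (rel_snoc (fun i => (hv i).mono (by linarith [abs_nonneg r])) ?_)⟩
    refine ⟨?_, _, rfl, ?_⟩
    · rintro x rfl
      simp only [Pi.zero_apply, Nat.cast_zero, zero_mul, Finset.sum_const_zero, zero_add]
      linarith [le_abs_self r]
    · simp only [Pi.zero_apply, Nat.cast_zero, zero_mul, Finset.sum_const_zero]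
      linarith [neg_abs_le r]
  | min i j C ih =>
    intro K0 h0
    obtain ⟨K, hK, hz, h⟩ := ih K0 h0
    refine ⟨K, hK, fun hC => hz hC, fun w v σ hv => h w _ _ (rel_snoc hv ?_)⟩
    obtain ⟨hi1, x, hx, hi2⟩ := hv i
    obtain ⟨hj1, y, hy, hj2⟩ := hv j
    refine ⟨?_, ?_⟩
    · rintro z (hz | hz)
      · exact (inf_le_left).trans (hi1 z hz)
      · exact (inf_le_right).trans (hj1 z hz)
    · rcases le_total (v i) (v j) with hh | hh
      · exact ⟨x, Or.inl hx, by rw [inf_eq_left.mpr hh]; exact hi2⟩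
      · exact ⟨y, Or.inr hy, by rw [inf_eq_right.mpr hh]; exact hj2⟩
  | add i j C ih =>
    intro K0 h0
    obtain ⟨K, hK, hz, h⟩ := ih (K0 + K0) (by linarith)
    refine ⟨K, hK, fun hC h00 => hz hC (by rw [h00]; simp), fun w v σ hv => h w _ _
      (rel_snoc (fun i => (hv i).mono (by linarith)) ?_)⟩
    obtain ⟨hi1, x, hx, hi2⟩ := hv i
    obtain ⟨hj1, y, hy, hj2⟩ := hv j
    have hadd : ∀ x y : E → ℕ, ∑ e, (((x + y) e : ℕ) : ℝ) * w e
        = ∑ e, (x e : ℝ) * w e + ∑ e, (y e : ℝ) * w e := by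
      intro x y
      rw [← Finset.sum_add_distrib]
      refine Finset.sum_congr rfl fun e _ => ?_
      rw [Pi.add_apply]; push_cast; ring
    refine ⟨?_, x + y, Set.add_mem_add hx hy, ?_⟩
    · rintro _ ⟨a, ha, b, hb, rfl⟩
      simp only
      rw [hadd]
      linarith [hi1 a ha, hj1 b hb]
    · rw [hadd]; linarith

section graph

variable {V : Type} [Fintype V] [DecidableEq V]

/-- the total weight of the edges between X and its complement -/
noncomputable def cutWeight (w : Sym2 V → ℝ) (X : Finset V) : ℝ :=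
  ∑ u ∈ X, ∑ v ∈ Xᶜ, w s(u, v)

/-- the edge indicator of a graph -/
noncomputable def ind (G : SimpleGraph V) (e : Sym2 V) : ℝ :=
  open Classical in if e ∈ G.edgeSet then 1 else 0

/-- on the weights w the program outputs the minimum weight of a bisection -/
def Computes (m : ℕ) (C : Program (Sym2 V) 0) (w : Sym2 V → ℝ) : Prop :=
  IsLeast {c : ℝ | ∃ X : Finset V, X.card = m ∧ cutWeight w X = c} (C.value w (fun i => i.elim0))

/-- natural number versions -/
noncomputable def indN (G : SimpleGraph V) (e : Sym2 V) : ℕ :=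
  open Classical in if e ∈ G.edgeSet then 1 else 0

def cutN (g : Sym2 V → ℕ) (X : Finset V) : ℕ := ∑ u ∈ X, ∑ v ∈ Xᶜ, g s(u, v)

def Good (m : ℕ) (S : Set (Sym2 V → ℕ)) : Prop :=
  ∀ G : SimpleGraph V, (∀ x ∈ S, ∃ X : Finset V, X.card = m ∧ cutN (indN G) X ≤ ∑ e, x e * indN G e)
    ∧ ∀ X : Finset V, X.card = m → ∃ x ∈ S, ∑ e, x e * indN G e ≤ cutN (indN G) X

lemma good_of (m : ℕ) (C : Program (Sym2 V) 0) (S : Set (Sym2 V → ℕ)) (K : ℝ) (t : ℕ)
    (hK : K < t) (hR : ∀ w, Rel w K (C.value w (fun i => i.elim0)) S)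
    (hc : ∀ G : SimpleGraph V, Computes m C (fun e => t * ind G e)) : Good m S := by
  intro G
  obtain ⟨⟨X0, hX0, hval⟩, hle⟩ := hc G
  obtain ⟨h1, x1, hx1, h2⟩ := hR (fun e => t * ind G e)
  have hi : ∀ e, ind G e = (indN G e : ℝ) := by
    intro e; unfold ind indN; split_ifs <;> simp
  have hcut : ∀ X : Finset V, cutWeight (fun e => t * ind G e) X = t * (cutN (indN G) X : ℝ) := by
    intro X
    unfold cutWeight cutN
    push_cast
    rw [Finset.mul_sum]
    refine Finset.sum_congr rfl fun u _ => ?_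
    rw [Finset.mul_sum]
    exact Finset.sum_congr rfl fun v _ => by rw [hi]
  have hx : ∀ x : Sym2 V → ℕ, ∑ e, (x e : ℝ) * (t * ind G e)
      = t * ((∑ e, x e * indN G e : ℕ) : ℝ) := by
    intro x
    push_cast
    rw [Finset.mul_sum]
    exact Finset.sum_congr rfl fun e _ => by rw [hi]; ring
  have hcmp : ∀ a b : ℕ, (t : ℝ) * a ≤ t * b + K → a ≤ b := by
    intro a b hab
    by_contra hlt
    have h3 : (b : ℝ) + 1 ≤ a := by exact_mod_cast Nat.lt_of_not_le hlt
    have h4 : (t : ℝ) * (b + 1) ≤ t * a := mul_le_mul_of_nonneg_left h3 (Nat.cast_nonneg _)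
    nlinarith
  refine ⟨fun x hxS => ⟨X0, hX0, hcmp _ _ ?_⟩, fun X hX => ⟨x1, hx1, hcmp _ _ ?_⟩⟩
  · rw [← hcut, hval, ← hx]
    exact h1 x hxS
  · rw [← hcut, ← hx]
    exact h2.trans (by linarith [hle ⟨X, hX, rfl⟩])

/-- the edge e crosses X -/
def Cr (X : Finset V) (e : Sym2 V) : Prop := ∃ u ∈ X, ∃ v ∉ X, e = s(u, v)

omit [Fintype V] in
lemma cr_mk (X : Finset V) (u v : V) : Cr X s(u, v) ↔ ¬ (u ∈ X ↔ v ∈ X) := by
  constructor
  · rintro ⟨a, ha, b, hb, h⟩
    rw [Sym2.eq_iff] at h
    rcases h with ⟨rfl, rfl⟩ | ⟨rfl, rfl⟩ <;> tauto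
  · intro h
    by_cases hu : u ∈ X
    · have hv : v ∉ X := by tauto
      exact ⟨u, hu, v, hv, rfl⟩
    · have hv : v ∈ X := by tauto
      exact ⟨v, hv, u, hu, Sym2.eq_swap⟩

open Classical in
lemma sum_cr (X : Finset V) (f : Sym2 V → ℕ) :
    ∑ e, (if Cr X e then f e else 0) = ∑ u ∈ X, ∑ v ∈ Xᶜ, f s(u, v) := by
  rw [← Finset.sum_filter, ← Finset.sum_product']
  symm
  refine Finset.sum_nbij (fun p : V × V => s(p.1, p.2)) ?_ ?_ ?_ ?_
  · rintro ⟨u, v⟩ h
    simp only [Finset.mem_product, Finset.mem_compl] at h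
    simp only [Finset.mem_filter, Finset.mem_univ, true_and]
    exact ⟨u, h.1, v, h.2, rfl⟩
  · rintro ⟨u, v⟩ h ⟨a, b⟩ h' heq
    simp only [Finset.coe_product, Set.mem_prod, Finset.mem_coe, Finset.mem_compl] at h h'
    simp only at heq
    rw [Sym2.eq_iff] at heq
    rcases heq with ⟨rfl, rfl⟩ | ⟨rfl, rfl⟩
    · rfl
    · exact absurd h.1 h'.2
  · rintro e he
    simp only [Finset.coe_filter, Finset.mem_univ, true_and, Set.mem_ofPred_eq] at he
    obtain ⟨u, hu, v, hv, rfl⟩ := he
    exact ⟨(u, v), by simp [hu, hv], rfl⟩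
  · rintro ⟨u, v⟩ _
    rfl

lemma cutN_eq (g : Sym2 V → ℕ) (X : Finset V) : open Classical in
    cutN g X = ∑ e, (if Cr X e then g e else 0) := (sum_cr X g).symm

open Classical in
/-- the part of a monomial that avoids v0 and the loops -/
noncomputable def prj (v0 : V) (x : Sym2 V → ℕ) : Sym2 V → ℕ :=
  fun e => if v0 ∉ e ∧ ¬ e.IsDiag then x e else 0

open Classical in
/-- the vector of a cut, without the edges at v0 -/
noncomputable def vec (v0 : V) (X : Finset V) : Sym2 V → ℕ :=
  fun e => if Cr X e then (if v0 ∉ e then 1 else 0) else 0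

lemma exists_cut (m : ℕ) (hV : Fintype.card V = 2 * m) (v0 : V) (S : Set (Sym2 V → ℕ))
    (hS : Good m S) (x : Sym2 V → ℕ) (hx : x ∈ S) :
    ∃ Z : Finset V, Z.card = m ∧ v0 ∉ Z ∧ ∀ e, Cr Z e → 1 ≤ x e := by
  let G : SimpleGraph V := SimpleGraph.mk (fun u v => u ≠ v ∧ x s(u, v) = 0)
    ⟨fun u v h => ⟨h.1.symm, by rw [Sym2.eq_swap]; exact h.2⟩⟩ ⟨fun u h => h.1 rfl⟩
  have hG : ∀ u v, s(u, v) ∈ G.edgeSet ↔ u ≠ v ∧ x s(u, v) = 0 := fun u v => by
    rw [SimpleGraph.mem_edgeSet]
  obtain ⟨X, hX, hle⟩ := (hS G).1 x hx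
  have h0 : ∑ e, x e * indN G e = 0 := by
    refine Finset.sum_eq_zero fun e _ => ?_
    induction e with
    | h u v =>
      unfold indN
      by_cases h : s(u, v) ∈ G.edgeSet
      · rw [((hG u v).1 h).2]; simp
      · simp [h]
  rw [h0, Nat.le_zero, cutN, Finset.sum_eq_zero_iff] at hle
  have h1 : ∀ e, Cr X e → 1 ≤ x e := by
    rintro e ⟨u, hu, v, hv, rfl⟩
    have h2 := hle u hu
    rw [Finset.sum_eq_zero_iff] at h2
    have h3 := h2 v (by simpa using hv)
    unfold indN at h3
    by_contra h4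
    have h5 : s(u, v) ∈ G.edgeSet := by
      rw [hG]
      exact ⟨fun h => hv (h ▸ hu), by omega⟩
    simp [h5] at h3
  by_cases hv : v0 ∈ X
  · refine ⟨Xᶜ, ?_, by simpa using hv, ?_⟩
    · rw [Finset.card_compl, hV, hX]; omega
    · intro e he
      refine h1 e ?_
      induction e with
      | h u v =>
        rw [cr_mk] at he ⊢
        simp only [Finset.mem_compl] at he
        tauto
  · exact ⟨X, hX, hv, h1⟩

omit [Fintype V] in
lemma vec_le_prj (v0 : V) (Z : Finset V) (x : Sym2 V → ℕ)
    (h : ∀ e, Cr Z e → 1 ≤ x e) (e : Sym2 V) : vec v0 Z e ≤ prj v0 x e := by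
  unfold vec prj
  by_cases h1 : Cr Z e
  · by_cases h2 : v0 ∉ e
    · have h3 : ¬ e.IsDiag := by
        obtain ⟨u, hu, v, hv, rfl⟩ := h1
        rw [Sym2.mk_isDiag_iff]
        rintro rfl; exact hv hu
      simp only [h1, h2, h3, not_false_eq_true, and_self, if_true]
      exact h e h1
    · simp [h2]
  · simp [h1]

lemma sum_vec (m : ℕ) (hV : Fintype.card V = 2 * m) (v0 : V) (X : Finset V)
    (hX : X.card = m) (h0 : v0 ∉ X) : ∑ e, vec v0 X e = m * (m - 1) := by
  unfold vec
  rw [sum_cr]
  have h1 : ∀ u ∈ X, ∑ v ∈ Xᶜ, (if v0 ∉ s(u, v) then 1 else 0) = m - 1 := by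
    intro u hu
    rw [← Finset.sum_filter, Finset.sum_const, smul_eq_mul, mul_one]
    have : Xᶜ.filter (fun v => v0 ∉ s(u, v)) = Xᶜ.erase v0 := by
      ext v
      simp only [Finset.mem_filter, Finset.mem_erase, Sym2.mem_iff, Finset.mem_compl]
      have : v0 ≠ u := fun h => h0 (h ▸ hu)
      constructor
      · rintro ⟨h1, h2⟩
        exact ⟨fun h => h2 (Or.inr h.symm), h1⟩
      · rintro ⟨h1, h2⟩
        refine ⟨h2, ?_⟩
        rintro (h | h)
        · exact this h
        · exact h1 h.symm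
    rw [this, Finset.card_erase_of_mem (by simpa using h0), Finset.card_compl, hV, hX]
    omega
  rw [Finset.sum_congr rfl h1, Finset.sum_const, hX, smul_eq_mul]

lemma layer (m : ℕ) (hV : Fintype.card V = 2 * m) (v0 : V) (S : Set (Sym2 V → ℕ))
    (hS : Good m S) : (∀ x ∈ prj v0 '' S, m * (m - 1) ≤ ∑ e, x e) ∧
    {x ∈ prj v0 '' S | ∑ e, x e = m * (m - 1)} = vec v0 '' {X | X.card = m ∧ v0 ∉ X} := by
  have hA : ∀ x ∈ S, ∃ Z : Finset V, Z.card = m ∧ v0 ∉ Z ∧ (∀ e, Cr Z e → 1 ≤ x e) ∧
      m * (m - 1) ≤ ∑ e, prj v0 x e ∧ (∑ e, prj v0 x e ≤ m * (m - 1) → prj v0 x = vec v0 Z) := by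
    intro x hx
    obtain ⟨Z, hZ, h0, h1⟩ := exists_cut m hV v0 S hS x hx
    refine ⟨Z, hZ, h0, h1, ?_, fun h => ?_⟩
    · rw [← sum_vec m hV v0 Z hZ h0]
      exact Finset.sum_le_sum fun e _ => vec_le_prj v0 Z x h1 e
    · rw [← sum_vec m hV v0 Z hZ h0] at h
      have h2 := (Finset.sum_eq_sum_iff_of_le (fun e _ => vec_le_prj v0 Z x h1 e)).1
        (le_antisymm (Finset.sum_le_sum fun e _ => vec_le_prj v0 Z x h1 e) h)
      funext e
      exact (h2 e (Finset.mem_univ _)).symm
  refine ⟨?_, ?_⟩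
  · rintro _ ⟨x, hx, rfl⟩
    obtain ⟨Z, _, _, _, h, _⟩ := hA x hx
    exact h
  · ext y
    constructor
    · rintro ⟨⟨x, hx, rfl⟩, h⟩
      obtain ⟨Z, hZ, h0, _, _, h2⟩ := hA x hx
      exact ⟨Z, ⟨hZ, h0⟩, (h2 h.le).symm⟩
    · rintro ⟨X, ⟨hX, h0⟩, rfl⟩
      refine ⟨?_, sum_vec m hV v0 X hX h0⟩
      let G : SimpleGraph V := SimpleGraph.mk
        (fun u v => u ≠ v ∧ ¬ (u = v0 ∧ v ∈ X) ∧ ¬ (v = v0 ∧ u ∈ X))
        ⟨fun u v h => ⟨h.1.symm, h.2.2, h.2.1⟩⟩ ⟨fun u h => h.1 rfl⟩
      have hG : ∀ u v, s(u, v) ∈ G.edgeSet ↔ u ≠ v ∧ ¬ (u = v0 ∧ v ∈ X) ∧ ¬ (v = v0 ∧ u ∈ X) :=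
        fun u v => by rw [SimpleGraph.mem_edgeSet]
      obtain ⟨x, hx, hle⟩ := (hS G).2 X hX
      have hcut : cutN (indN G) X ≤ m * (m - 1) := by
        rw [← sum_vec m hV v0 X hX h0, cutN_eq]
        refine Finset.sum_le_sum fun e _ => ?_
        unfold vec
        by_cases h1 : Cr X e
        · simp only [h1, if_true]
          by_cases h2 : v0 ∈ e
          · obtain ⟨u, hu, v, hv, rfl⟩ := h1
            have h3 : v0 = v := by
              rcases Sym2.mem_iff.1 h2 with h | h
              · exact absurd (h ▸ hu) h0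
              · exact h
            have h4 : s(u, v) ∉ G.edgeSet := by
              rw [hG]; tauto
            unfold indN
            simp [h4]
          · unfold indN
            simp only [h2, not_false_eq_true, if_true]
            split_ifs <;> omega
        · simp [h1]
      obtain ⟨Z, hZ, h0Z, h1, h2, h3⟩ := hA x hx
      -- the edges at v0 outside X
      have h4 : ∀ e, prj v0 x e + (if v0 ∈ e then x e * indN G e else 0) ≤ x e * indN G e := by
        intro e
        by_cases h5 : v0 ∈ e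
        · simp [prj, h5]
        · simp only [h5, if_false, add_zero, prj]
          by_cases h6 : e.IsDiag
          · simp [h6]
          · simp only [h6, not_false_eq_true, and_self, if_true]
            have h7 : e ∈ G.edgeSet := by
              induction e with
              | h u v =>
                rw [hG]
                rw [Sym2.mk_isDiag_iff] at h6
                simp only [Sym2.mem_iff, not_or] at h5
                refine ⟨h6, ?_, ?_⟩
                · rintro ⟨h, _⟩; exact h5.1 h.symm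
                · rintro ⟨h, _⟩; exact h5.2 h.symm
            unfold indN
            simp [h7]
      have h5 : ∑ e, prj v0 x e + ∑ e, (if v0 ∈ e then x e * indN G e else 0)
          ≤ m * (m - 1) := by
        rw [← Finset.sum_add_distrib]
        exact (Finset.sum_le_sum fun e _ => h4 e).trans (hle.trans hcut)
      have h6 : prj v0 x = vec v0 Z := h3 (by omega)
      have h7 : ∑ e, (if v0 ∈ e then x e * indN G e else 0) = 0 := by omega
      rw [Finset.sum_eq_zero_iff] at h7
      have h8 : Z ⊆ X := by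
        intro u hu
        by_contra hcon
        have h9 := h7 s(v0, u) (Finset.mem_univ _)
        have h10 : s(v0, u) ∈ G.edgeSet := by
          rw [hG]
          refine ⟨fun h => h0Z (h ▸ hu), ?_, ?_⟩
          · rintro ⟨_, h⟩; exact hcon h
          · rintro ⟨_, h⟩; exact h0 h
        have h11 : 1 ≤ x s(v0, u) := h1 _ (by rw [cr_mk]; tauto)
        simp only [Sym2.mem_iff, true_or, if_true, indN, h10, mul_one] at h9
        omega
      have h9 : Z = X := Finset.eq_of_subset_of_card_le h8 (by rw [hZ, hX])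
      exact ⟨x, hx, by rw [h6, h9]⟩

omit [Fintype V] in
lemma vec_mk (v0 : V) (X : Finset V) (u v : V) (hu : u ≠ v0) (hv : v ≠ v0) :
    vec v0 X s(u, v) = dif (decide (u ∈ X)) (decide (v ∈ X)) := by
  have h : v0 ∉ s(u, v) := by
    rw [Sym2.mem_iff]
    rintro (h | h)
    · exact hu h.symm
    · exact hv h.symm
  unfold vec dif
  simp only [cr_mk, h, not_false_eq_true, if_true, decide_eq_decide]
  by_cases h2 : (u ∈ X ↔ v ∈ X)
  · simp [h2]
  · simp [h2]

omit [Fintype V] in
lemma vec_eq_of (v0 : V) (X Y : Finset V)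
    (h : ∀ u v : {u : V // u ≠ v0}, dif (decide (u.1 ∈ Y)) (decide (v.1 ∈ Y))
      = dif (decide (u.1 ∈ X)) (decide (v.1 ∈ X))) : vec v0 Y = vec v0 X := by
  funext e
  induction e with
  | h u v =>
    by_cases hu : u = v0
    · subst hu
      simp [vec]
    · by_cases hv : v = v0
      · subst hv
        simp [vec]
      · rw [vec_mk v0 Y u v hu hv, vec_mk v0 X u v hu hv]
        exact h ⟨u, hu⟩ ⟨v, hv⟩

omit [Fintype V] in
lemma rf_vec (v0 : V) (A : Set (Finset V)) : RF (vec v0 '' A) := by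
  rintro p q s t ⟨X, _, hX⟩ ⟨Y, _, hY⟩ ⟨Z, _, hZ⟩ ⟨W, _, hW⟩
  have h1 : vec v0 X + vec v0 W = vec v0 Y + vec v0 Z := by
    rw [hX, hY, hZ, hW]; abel
  have h2 := sidon (fun u : {u : V // u ≠ v0} => decide (u.1 ∈ X)) (fun u => decide (u.1 ∈ W))
    (fun u => decide (u.1 ∈ Y)) (fun u => decide (u.1 ∈ Z)) (fun u v => by
      have h3 := congrFun h1 s(u.1, v.1)
      simp only [Pi.add_apply] at h3
      rw [vec_mk v0 X _ _ u.2 v.2, vec_mk v0 Y _ _ u.2 v.2, vec_mk v0 Z _ _ u.2 v.2,
        vec_mk v0 W _ _ u.2 v.2] at h3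
      exact h3)
  rcases h2 with h2 | h2
  · right
    have h3 := vec_eq_of v0 X Y h2
    rw [hX, hY] at h3
    exact (add_left_cancel h3).symm
  · left
    have h3 := vec_eq_of v0 X Z h2
    rw [hX, hZ] at h3
    exact (add_right_cancel h3).symm

lemma vec_inj (m : ℕ) (hV : Fintype.card V = 2 * m) (v0 : V) :
    Set.InjOn (vec v0) {X : Finset V | X.card = m ∧ v0 ∉ X} := by
  rintro X ⟨hX, hX0⟩ Y ⟨hY, hY0⟩ h
  have hm : 1 ≤ m := by
    have : 0 < Fintype.card V := Fintype.card_pos_iff.mpr ⟨v0⟩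
    omega
  -- a common element
  obtain ⟨u, hu⟩ : (X ∩ Y).Nonempty := by
    rw [← Finset.card_pos]
    have h1 := Finset.card_union_add_card_inter X Y
    have h2 : (X ∪ Y).card ≤ (Finset.univ.erase v0).card := by
      refine Finset.card_le_card fun v hv => ?_
      rw [Finset.mem_erase]
      refine ⟨?_, Finset.mem_univ _⟩
      rintro rfl
      rcases Finset.mem_union.1 hv with h | h
      · exact hX0 h
      · exact hY0 h
    rw [Finset.card_erase_of_mem (Finset.mem_univ _), Finset.card_univ, hV] at h2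
    omega
  obtain ⟨huX, huY⟩ := Finset.mem_inter.1 hu
  have hu0 : u ≠ v0 := fun h => hX0 (h ▸ huX)
  ext v
  by_cases hv : v = v0
  · subst hv; tauto
  · have h3 := congrFun h s(u, v)
    rw [vec_mk v0 X _ _ hu0 hv, vec_mk v0 Y _ _ hu0 hv] at h3
    simp only [huX, huY, decide_true, dif] at h3
    by_cases h4 : v ∈ X <;> by_cases h5 : v ∈ Y <;> simp_all

lemma card_reps (m : ℕ) (hV : Fintype.card V = 2 * m) (v0 : V) :
    {X : Finset V | X.card = m ∧ v0 ∉ X}.encard = ((2 * m - 1).choose m : ℕ) := by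
  have h : {X : Finset V | X.card = m ∧ v0 ∉ X}
      = (((Finset.univ.erase v0).powersetCard m : Finset (Finset V)) : Set (Finset V)) := by
    ext X
    simp only [Set.mem_ofPred_eq, Finset.mem_coe, Finset.mem_powersetCard]
    constructor
    · rintro ⟨h1, h2⟩
      refine ⟨fun v hv => ?_, h1⟩
      rw [Finset.mem_erase]
      exact ⟨fun h => h2 (h ▸ hv), Finset.mem_univ _⟩
    · rintro ⟨h1, h2⟩
      exact ⟨h2, fun h => by simpa using h1 h⟩
  rw [h, Set.encard_coe_eq_coe_finsetCard, Finset.card_powersetCard,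
    Finset.card_erase_of_mem (Finset.mem_univ _), Finset.card_univ, hV]

theorem lower (m : ℕ) (hV : Fintype.card V = 2 * m) (v0 : V) (C : Program (Sym2 V) 0)
    (hS : Good m (C.run (fun e => Pi.single e 1) (fun i => i.elim0))) :
    (2 * m - 1).choose m ≤ C.minGates + 1 := by
  classical
  let deg : (Sym2 V → ℕ) →+ ℕ :=
    { toFun := fun x => ∑ e, x e
      map_zero' := by simp
      map_add' := fun x y => by simp [Finset.sum_add_distrib] }
  let ph : (Sym2 V → ℕ) →+ (Sym2 V → ℕ) :=
    { toFun := prj v0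
      map_zero' := by funext e; simp [prj]
      map_add' := fun x y => by
        funext e
        simp only [prj, Pi.add_apply]
        split_ifs <;> simp }
  have h1 : C.run (fun e => prj v0 (Pi.single e 1)) (fun i => {Fin.elim0 i})
      = prj v0 '' (C.run (fun e => Pi.single e 1) (fun i => i.elim0)) := by
    have := run_hom (fun e => Pi.single e 1) (fun e => prj v0 (Pi.single e 1))
      (fun A => prj v0 '' A) (fun A B => Set.image_union _ _ _)
      (fun A B => Set.image_add ph) (by
        rw [Set.image_singleton]; exact congrArg _ (map_zero ph)) (fun e => Set.image_singleton) C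
        (fun i => i.elim0)
    rw [← this]
    congr 1
    funext i
    exact i.elim0
  obtain ⟨h2, h3⟩ := layer m hV v0 _ hS
  have h4 := schnorr deg (fun e => prj v0 (Pi.single e 1)) (m * (m - 1)) C (fun i => Fin.elim0 i)
    (by rw [h1]; exact h2) (by
      rw [h1]
      have : {x ∈ prj v0 '' C.run (fun e => Pi.single e 1) (fun i => i.elim0) |
          deg x = m * (m - 1)} = vec v0 '' {X | X.card = m ∧ v0 ∉ X} := h3
      rw [this]
      exact rf_vec v0 _)
  rw [h1] at h4
  have h5 : {x ∈ prj v0 '' C.run (fun e => Pi.single e 1) (fun i => i.elim0) |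
          deg x = m * (m - 1)} = vec v0 '' {X | X.card = m ∧ v0 ∉ X} := h3
  rw [h5, (vec_inj m hV v0).encard_image, card_reps m hV v0] at h4
  exact_mod_cast h4

end graph

/-- renaming of the numbers computed so far -/
def Program.rename : {n k : ℕ} → Program E n → (Fin n → Fin k) → Program E k
  | _, _, .out i, ρ => .out (ρ i)
  | _, k, .var e C, ρ => .var e
      (C.rename (Fin.snoc (α := fun _ => Fin (k + 1)) (fun i => (ρ i).castSucc) (Fin.last k)))
  | _, k, .const r C, ρ => .const r
      (C.rename (Fin.snoc (α := fun _ => Fin (k + 1)) (fun i => (ρ i).castSucc) (Fin.last k)))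
  | _, k, .min i j C, ρ => .min (ρ i) (ρ j)
      (C.rename (Fin.snoc (α := fun _ => Fin (k + 1)) (fun i => (ρ i).castSucc) (Fin.last k)))
  | _, k, .add i j C, ρ => .add (ρ i) (ρ j)
      (C.rename (Fin.snoc (α := fun _ => Fin (k + 1)) (fun i => (ρ i).castSucc) (Fin.last k)))

lemma snoc_rename {n k : ℕ} (ρ : Fin n → Fin k) (v : Fin k → ℝ) (a : ℝ) :
    (fun i => Fin.snoc (α := fun _ => ℝ) v a
      (Fin.snoc (α := fun _ => Fin (k + 1)) (fun i => (ρ i).castSucc) (Fin.last k) i))
    = Fin.snoc (α := fun _ => ℝ) (fun i => v (ρ i)) a := by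
  funext i
  refine Fin.lastCases ?_ (fun i => ?_) i
  · simp
  · simp

lemma rename_value (w : E → ℝ) {n : ℕ} (C : Program E n) : ∀ {k : ℕ} (ρ : Fin n → Fin k)
    (v : Fin k → ℝ), (C.rename ρ).value w v = C.value w (fun i => v (ρ i)) := by
  induction C with
  | out i => intro k ρ v; rfl
  | var e C ih => intro k ρ v; simp only [Program.rename, Program.value]; rw [ih, snoc_rename]
  | const r C ih => intro k ρ v; simp only [Program.rename, Program.value]; rw [ih, snoc_rename]
  | min i j C ih => intro k ρ v; simp only [Program.rename, Program.value]; rw [ih, snoc_rename]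
  | add i j C ih => intro k ρ v; simp only [Program.rename, Program.value]; rw [ih, snoc_rename]

lemma rename_minGates {n : ℕ} (C : Program E n) : ∀ {k : ℕ} (ρ : Fin n → Fin k),
    (C.rename ρ).minGates = C.minGates := by
  induction C with
  | out i => intro k ρ; rfl
  | var e C ih => intro k ρ; simp only [Program.rename, Program.minGates]; rw [ih]
  | const r C ih => intro k ρ; simp only [Program.rename, Program.minGates]; rw [ih]
  | min i j C ih => intro k ρ; simp only [Program.rename, Program.minGates]; rw [ih]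
  | add i j C ih => intro k ρ; simp only [Program.rename, Program.minGates]; rw [ih]

lemma rename_zeroConst {n : ℕ} (C : Program E n) : ∀ {k : ℕ} (ρ : Fin n → Fin k),
    C.ZeroConst → (C.rename ρ).ZeroConst := by
  induction C with
  | out i => intro k ρ _; trivial
  | var e C ih => intro k ρ h; exact ih _ h
  | const r C ih => intro k ρ h; exact ⟨h.1, ih _ h.2⟩
  | min i j C ih => intro k ρ h; exact ih _ h
  | add i j C ih => intro k ρ h; exact ih _ h

/-- formulas -/
inductive Fm (E : Type) : Type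
  | var (e : E) : Fm E
  | min (a b : Fm E) : Fm E
  | add (a b : Fm E) : Fm E

noncomputable def Fm.eval (w : E → ℝ) : Fm E → ℝ
  | .var e => w e
  | .min a b => a.eval w ⊓ b.eval w
  | .add a b => a.eval w + b.eval w

def Fm.mins : Fm E → ℕ
  | .var _ => 0
  | .min a b => a.mins + b.mins + 1
  | .add a b => a.mins + b.mins

/-- compile a formula -/
lemma compile (t : Fm E) : ∀ {n : ℕ} (D : Program E (n + 1)), ∃ C : Program E n,
    (∀ w v, C.value w v = D.value w (Fin.snoc (α := fun _ => ℝ) v (t.eval w))) ∧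
    C.minGates = t.mins + D.minGates ∧ (D.ZeroConst → C.ZeroConst) := by
  have key : ∀ {n : ℕ} (v : Fin n → ℝ) (a b c : ℝ),
      (fun i => Fin.snoc (α := fun _ => ℝ) (Fin.snoc (α := fun _ => ℝ)
        (Fin.snoc (α := fun _ => ℝ) v a) b) c (Fin.snoc (α := fun _ => Fin (n + 3))
          (fun i : Fin n => i.castSucc.castSucc.castSucc) (Fin.last (n + 2)) i))
      = Fin.snoc (α := fun _ => ℝ) v c := by
    intro n v a b c
    funext i
    refine Fin.lastCases ?_ (fun i => ?_) i
    · simp
    · simp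
  induction t with
  | var e =>
    intro n D
    exact ⟨.var e D, fun w v => rfl, by simp [Program.minGates, Fm.mins], fun h => h⟩
  | min a b iha ihb =>
    intro n D
    obtain ⟨C2, h21, h22, h23⟩ := ihb (Program.min (Fin.last n).castSucc (Fin.last (n + 1))
      (D.rename (Fin.snoc (α := fun _ => Fin (n + 3))
          (fun i : Fin n => i.castSucc.castSucc.castSucc) (Fin.last (n + 2)))))
    obtain ⟨C1, h11, h12, h13⟩ := iha C2
    refine ⟨C1, fun w v => ?_, ?_, fun h => h13 (h23 (rename_zeroConst D _ h))⟩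
    · rw [h11, h21]
      simp only [Program.value]
      rw [rename_value, key]
      simp [Fm.eval]
    · rw [h12, h22]
      simp only [Program.minGates, Fm.mins, rename_minGates]
      ring
  | add a b iha ihb =>
    intro n D
    obtain ⟨C2, h21, h22, h23⟩ := ihb (Program.add (Fin.last n).castSucc (Fin.last (n + 1))
      (D.rename (Fin.snoc (α := fun _ => Fin (n + 3))
          (fun i : Fin n => i.castSucc.castSucc.castSucc) (Fin.last (n + 2)))))
    obtain ⟨C1, h11, h12, h13⟩ := iha C2
    refine ⟨C1, fun w v => ?_, ?_, fun h => h13 (h23 (rename_zeroConst D _ h))⟩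
    · rw [h11, h21]
      simp only [Program.value]
      rw [rename_value, key]
      simp [Fm.eval]
    · rw [h12, h22]
      simp only [Program.minGates, Fm.mins, rename_minGates]
      ring

lemma fm_sum (l : List E) (hl : l ≠ []) : ∃ t : Fm E, t.mins = 0 ∧
    ∀ w : E → ℝ, t.eval w = (l.map w).sum := by
  induction l with
  | nil => exact absurd rfl hl
  | cons e l ih =>
    rcases l with _ | ⟨e', l⟩
    · exact ⟨.var e, rfl, fun w => by simp [Fm.eval]⟩
    · obtain ⟨t, h1, h2⟩ := ih (by simp)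
      exact ⟨.add (.var e) t, by simp [Fm.mins, h1], fun w => by
        simp only [Fm.eval, h2]; simp⟩

lemma fm_min (L : List (Fm E)) (hL : L ≠ []) (h0 : ∀ t ∈ L, t.mins = 0) :
    ∃ t : Fm E, t.mins + 1 = L.length ∧ ∀ w : E → ℝ, (∃ s ∈ L, t.eval w = s.eval w) ∧
      ∀ s ∈ L, t.eval w ≤ s.eval w := by
  induction L with
  | nil => exact absurd rfl hL
  | cons e l ih =>
    rcases l with _ | ⟨e', l⟩
    · refine ⟨e, ?_, fun w => ⟨⟨e, by simp⟩, by simp⟩⟩
      rw [h0 e (by simp)]; rfl
    · obtain ⟨t, h1, h2⟩ := ih (by simp) (fun t ht => h0 t (List.mem_cons_of_mem _ ht))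
      refine ⟨.min e t, ?_, fun w => ?_⟩
      · simp only [Fm.mins, h0 e (by simp)]
        rw [List.length_cons, ← h1]; ring
      · obtain ⟨⟨s, hs, hs2⟩, h3⟩ := h2 w
        constructor
        · rcases le_total (e.eval w) (t.eval w) with h | h
          · exact ⟨e, by simp, by simp only [Fm.eval]; exact inf_eq_left.mpr h⟩
          · exact ⟨s, List.mem_cons_of_mem _ hs, by
              simp only [Fm.eval]; rw [inf_eq_right.mpr h, hs2]⟩
        · intro s' hs'
          rcases List.mem_cons.1 hs' with rfl | hs'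
          · exact inf_le_left
          · exact inf_le_right.trans (h3 s' hs')

section upper

variable {V : Type} [Fintype V] [DecidableEq V]

lemma cutWeight_compl (w : Sym2 V → ℝ) (X : Finset V) : cutWeight w Xᶜ = cutWeight w X := by
  unfold cutWeight
  rw [compl_compl, Finset.sum_comm]
  refine Finset.sum_congr rfl fun u _ => Finset.sum_congr rfl fun v _ => ?_
  rw [Sym2.eq_swap]

theorem upper (m : ℕ) (hm : 1 ≤ m) (hV : Fintype.card V = 2 * m) (v0 : V) :
    ∃ C : Program (Sym2 V) 0, C.ZeroConst ∧ C.minGates + 1 = (2 * m - 1).choose m ∧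
      ∀ w : Sym2 V → ℝ, Computes m C w := by
  classical
  have hsum : ∀ X : Finset V, X.card = m → ∃ t : Fm (Sym2 V), t.mins = 0 ∧
      ∀ w, t.eval w = cutWeight w X := by
    intro X hX
    obtain ⟨t, h1, h2⟩ := fm_sum (((X ×ˢ Xᶜ).toList).map (fun p => s(p.1, p.2))) (by
      intro h
      rw [List.map_eq_nil_iff, Finset.toList_eq_nil] at h
      have h3 := congrArg Finset.card h
      rw [Finset.card_product, Finset.card_compl, hV, hX, Finset.card_empty] at h3
      rcases Nat.mul_eq_zero.1 h3 with h4 | h4 <;> omega)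
    refine ⟨t, h1, fun w => ?_⟩
    rw [h2, List.map_map]
    unfold cutWeight
    rw [← Finset.sum_product', Finset.sum_map_toList]
    rfl
  have : Nonempty (Fm (Sym2 V)) := ⟨.var s(v0, v0)⟩
  choose! T hT1 hT2 using hsum
  set R := (Finset.univ.erase v0).powersetCard m with hR
  have hRc : R.card = (2 * m - 1).choose m := by
    rw [hR, Finset.card_powersetCard, Finset.card_erase_of_mem (Finset.mem_univ _),
      Finset.card_univ, hV]
  obtain ⟨t, ht1, ht2⟩ := fm_min (R.toList.map T) (by
      intro h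
      rw [List.map_eq_nil_iff, Finset.toList_eq_nil] at h
      rw [h, Finset.card_empty] at hRc
      have : 0 < (2 * m - 1).choose m := Nat.choose_pos (by omega)
      omega) (by
      intro t ht
      obtain ⟨X, hX, rfl⟩ := List.mem_map.1 ht
      rw [Finset.mem_toList, Finset.mem_powersetCard] at hX
      exact hT1 X hX.2)
  obtain ⟨C, hC1, hC2, hC3⟩ := compile t (Program.out (Fin.last 0))
  refine ⟨C, hC3 trivial, ?_, fun w => ?_⟩
  · rw [hC2]
    simp only [Program.minGates, add_zero]
    rw [ht1, List.length_map, Finset.length_toList, hRc]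
  · have hval : C.value w (fun i => i.elim0) = t.eval w := by
      rw [hC1]
      exact Fin.snoc_last (α := fun _ => ℝ) _ _
    obtain ⟨⟨s, hs, hs2⟩, h3⟩ := ht2 w
    constructor
    · obtain ⟨X, hX, rfl⟩ := List.mem_map.1 hs
      rw [Finset.mem_toList, Finset.mem_powersetCard] at hX
      exact ⟨X, hX.2, by rw [hval, hs2, hT2 X hX.2]⟩
    · rintro _ ⟨X, hX, rfl⟩
      rw [hval]
      have key : ∀ Y : Finset V, Y.card = m → v0 ∉ Y → t.eval w ≤ cutWeight w Y := by
        intro Y hY hY0
        rw [← hT2 Y hY]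
        refine h3 _ (List.mem_map.2 ⟨Y, ?_, rfl⟩)
        rw [Finset.mem_toList, Finset.mem_powersetCard]
        refine ⟨fun v hv => ?_, hY⟩
        rw [Finset.mem_erase]
        exact ⟨fun h => hY0 (h ▸ hv), Finset.mem_univ _⟩
      by_cases h0 : v0 ∈ X
      · rw [← cutWeight_compl]
        refine key _ ?_ (by simpa using h0)
        rw [Finset.card_compl, hV, hX]; omega
      · exact key X hX h0

end upper

lemma choose_half (m : ℕ) (hm : 1 ≤ m) : (2 * m).choose m / 2 = (2 * m - 1).choose m := by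
  obtain ⟨k, rfl⟩ := Nat.exists_eq_add_of_le' hm
  have h1 : 2 * (k + 1) - 1 = 2 * k + 1 := by omega
  have h2 : 2 * (k + 1) = (2 * k + 1) + 1 := by ring
  rw [h1, h2, Nat.choose_succ_succ', Nat.choose_symm_half]
  omega

/-- the weak form of correctness for which the lower bound holds: either the only constant used
is 0 and the program finds the bisection width of every simple graph with 2m vertices, or real
constants may be used and the program finds the minimum weight of a bisection for all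
nonnegative integer weights -/
def WeaklyCorrect (m : ℕ) (C : Program (Sym2 (Fin (2 * m))) 0) : Prop :=
  (C.ZeroConst ∧ ∀ G : SimpleGraph (Fin (2 * m)), Computes m C (ind G)) ∨
    ∀ w : Sym2 (Fin (2 * m)) → ℕ, Computes m C (fun e => (w e : ℝ))

theorem result (m : ℕ) (hm : 1 ≤ m) :
    (∀ C : Program (Sym2 (Fin (2 * m))) 0, WeaklyCorrect m C →
      (2 * m).choose m / 2 - 1 ≤ C.minGates) ∧
    ∃ C : Program (Sym2 (Fin (2 * m))) 0, C.ZeroConst ∧
      (∀ w : Sym2 (Fin (2 * m)) → ℝ, Computes m C w) ∧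
      C.minGates = (2 * m).choose m / 2 - 1 := by
  have hV : Fintype.card (Fin (2 * m)) = 2 * m := Fintype.card_fin _
  have v0 : Fin (2 * m) := ⟨0, by omega⟩
  rw [choose_half m hm]
  have hempty : ∀ (w : Sym2 (Fin (2 * m)) → ℝ) (K : ℝ) (i : Fin 0), Rel w K
      ((fun i : Fin 0 => (i.elim0 : ℝ)) i) ((fun i : Fin 0 => (i.elim0 : Set _)) i) :=
    fun w K i => i.elim0
  refine ⟨?_, ?_⟩
  · rintro C (⟨hC, hG⟩ | hw)
    · obtain ⟨K, hK0, hK, hR⟩ := value_run C 0 le_rfl
      have hS := good_of m C (C.run (fun e => Pi.single e 1) (fun i => i.elim0)) K 1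
        (by rw [hK hC rfl]; norm_num) (fun w => hR w _ _ (hempty w 0))
        (fun G => by
          have := hG G
          have h2 : (fun e => ((1 : ℕ) : ℝ) * ind G e) = ind G := by
            funext e; simp
          rwa [h2])
      have := lower m hV v0 C hS
      omega
    · obtain ⟨K, hK0, hK, hR⟩ := value_run C 0 le_rfl
      have hS := good_of m C (C.run (fun e => Pi.single e 1) (fun i => i.elim0)) K (⌈K⌉₊ + 1)
        (by push_cast; linarith [Nat.le_ceil K]) (fun w => hR w _ _ (hempty w 0))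
        (fun G => by
          have := hw (fun e => (⌈K⌉₊ + 1) * indN G e)
          have h2 : (fun e => ((⌈K⌉₊ + 1 : ℕ) : ℝ) * ind G e)
              = (fun e => (((⌈K⌉₊ + 1) * indN G e : ℕ) : ℝ)) := by
            funext e
            unfold ind indN
            split_ifs <;> simp
          rw [h2]
          exact this)
      have := lower m hV v0 C hS
      omega
  · obtain ⟨C0, hz, hg, hc⟩ := upper m hm hV v0
    exact ⟨C0, hz, hc, by omega⟩

end Pool.Agent.Results.MP_a9445a_lc.TropicalExact
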